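import Mathlib
import Pool.Agent.Lib.MP_2551c4_al.Main

/-! Every word has width bounded in terms of the word and the rank alone in finite groups of
prime power order. -/

namespace Pool.Agent.Results.MP_2551c4_al.UniformWidth

open Pool.Agent.Lib.MP_2551c4_al

universe u

theorem result (k : ℕ) (w : FreeGroup (Fin k)) (r : ℕ) :
    ∃ m : ℕ, ∀ p : ℕ, p.Prime → ∀ (G : Type u) [Group G] [Finite G], IsPGroup p G →
      (∀ H : Subgroup G, ∃ s : Finset G, s.card ≤ r ∧ Subgroup.closure (s : Set G) = H) →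
      ∀ x ∈ Subgroup.closure (Set.range fun g : Fin k → G => FreeGroup.lift g w),
        ∃ l : List G, l.length ≤ m ∧
          (∀ y ∈ l, ∃ g : Fin k → G, y = FreeGroup.lift g w ∨ y = (FreeGroup.lift g w)⁻¹) ∧
          l.prod = x := by
  classical
  obtain ⟨m, hm⟩ := width_bound w r
  refine ⟨m, fun p hp G _ _ hG hr x hx => ?_⟩
  let e : Shrink.{0} G ≃* G := Shrink.mulEquiv
  have : Finite (Shrink.{0} G) := Finite.of_equiv _ e.symm.toEquiv
  have h1 := hm p hp (Shrink.{0} G) (hG.of_equiv e.symm) (by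
    intro H
    obtain ⟨s, hs, hH⟩ := hr (H.comap e.symm.toMonoidHom)
    refine ⟨s.image e.symm, Finset.card_image_le.trans hs, ?_⟩
    rw [Finset.coe_image, ← MulEquiv.coe_toMonoidHom, ← MonoidHom.map_closure, hH,
      Subgroup.map_comap_eq_self_of_surjective e.symm.surjective]) (e.symm x)
    (map_vs e.symm.toMonoidHom e.symm.surjective w ▸ Subgroup.mem_map_of_mem _ hx)
  have h2 : x ∈ Wd w G m := by simpa using map_mem_Wd e.toMonoidHom h1
  exact h2

end Pool.Agent.Results.MP_2551c4_al.UniformWidth
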