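import Pool.Agent.FS.WordDep.Word

/-! The width of words in finite groups of prime power order and rank at most three is not bounded
independently of the word, even for a fixed prime. -/

namespace Pool.Agent.Results.MP_2551c4_al.WordDependence

open Pool.Agent.FS.WordDep Pointwise

theorem result (p : ℕ) (hp : p.Prime) (m : ℕ) :
    ∃ (w : FreeGroup (Fin 2)) (G : Type) (_ : Group G) (_ : Finite G), IsPGroup p G ∧
      (∀ H : Subgroup G, ∃ s : Finset G, s.card ≤ 3 ∧ Subgroup.closure (s : Set G) = H) ∧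
      ∃ x ∈ Subgroup.closure (Set.range fun g : Fin 2 → G => FreeGroup.lift g w),
        ∀ l : List G,
          (∀ y ∈ l, ∃ g : Fin 2 → G, y = FreeGroup.lift g w ∨ y = (FreeGroup.lift g w)⁻¹) →
          l.prod = x → m < l.length := by
  classical
  have : Fact p.Prime := ⟨hp⟩
  obtain ⟨n, hn⟩ : ∃ n, p ^ (2 * m + 2) = n + 1 :=
    Nat.exists_eq_succ_of_ne_zero (pow_ne_zero _ hp.ne_zero)
  obtain ⟨s, s1, s2⟩ := exists_level hp (n + 1) (2 * m)
  have hq : NeZero (p ^ (s + 2)) := ⟨pow_ne_zero _ hp.ne_zero⟩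
  obtain ⟨c, hc⟩ : ∃ c, c = 2 * n + 2 := ⟨_, rfl⟩
  have d1 : p ^ (s + 2) ∣ (p ^ (s + 2)) ^ (c + 1) := dvd_pow_self _ c.succ_ne_zero
  have d2 : p ∣ (p ^ (s + 2)) ^ (c + 1) := (dvd_pow_self p (by omega)).trans d1
  let R := Matrix (Fin 2) (Fin 2) (ZMod ((p ^ (s + 2)) ^ (c + 1)))
  let ρ : R →+* Matrix (Fin 2) (Fin 2) (ZMod (p ^ (s + 2))) :=
    (ZMod.castHom d1 (ZMod (p ^ (s + 2)))).mapMatrix
  let σ : R →+* Matrix (Fin 2) (Fin 2) (ZMod p) := (ZMod.castHom d2 (ZMod p)).mapMatrix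
  have hN : ∀ B : R, (p ^ (s + 2)) ^ (c + 1) • B = 0 := fun B => p_smul B
  let Γ : Subgroup Rˣ := Grp ρ ⊓ Sl _
  obtain ⟨N, eN⟩ : ∃ N, (s + 2) * (c + 1) = N + 2 := ⟨(s + 2) * c + s, by ring⟩
  have eM : (p ^ (s + 2)) ^ (c + 1) = p ^ (N + 2) := by rw [← pow_mul, eN]
  let w : FreeGroup (Fin 2) := wn (FreeGroup.of 0) (FreeGroup.of 1) n
  have hw : ∀ g : Fin 2 → Γ, ((FreeGroup.lift g w : Γ) : Rˣ) =
      wn (g 0 : Rˣ) (g 1 : Rˣ) n := by
    intro g
    have e : FreeGroup.lift g w = wn (g 0) (g 1) n := by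
      simp only [w, map_wn, FreeGroup.lift_apply_of]
    rw [e, ← Subgroup.subtype_apply, map_wn]
    rfl
  refine ⟨w, Γ, inferInstance, inferInstance, fun g => ?_, fun H => ?_, ?_⟩
  · obtain ⟨a, b, h⟩ := g.2.1
    refine ⟨(s + 2) * c, Subtype.ext ?_⟩
    rw [pow_mul]
    exact pow_eq_one_of_ld (ker_cast d1) hN h
  · refine rank_le (σ := σ) (f := Γ.subtype) (ker_cast d2) (N := N)
      (fun B => ?_) Subtype.val_injective (fun g => ?_) (fun i hi g A hA => trace_zero hp.pos d2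
        (by omega) ((pow_dvd_pow p (by omega)).trans eM.symm.dvd) g.2.2 hA) H
    · exact (congrArg (· • B) eM.symm).trans (hN B)
    · obtain ⟨a, b, B, h, -⟩ := g.2.1
      exact ⟨_, p ^ s • B, h.trans (congrArg (1 + ·) (smul_aux' p s B)), rfl⟩
  · by_contra hcon
    push Not at hcon
    have hC : (4 : ZMod (p ^ (s + 2))) ^ (n + 1) * (p : ZMod (p ^ (s + 2))) ^ (2 * m + 2) = 0 := by
      exact_mod_cast (ZMod.natCast_eq_zero_iff _ _).2 s1
    let T : Finset (ZMod (p ^ (s + 2))) := Finset.univ.image fun t : Fin p × Fin p =>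
      4 ^ (n + 1) * ((t.1 : ℕ) : ZMod (p ^ (s + 2))) ^ p ^ (2 * m + 2) -
        4 ^ (n + 1) * ((t.2 : ℕ) : ZMod (p ^ (s + 2))) ^ p ^ (2 * m + 2)
    have T0 : 0 ∈ T :=
      Finset.mem_image.2 ⟨(⟨0, hp.pos⟩, ⟨0, hp.pos⟩), Finset.mem_univ _, sub_self _⟩
    have Tm : ∀ D D' : ZMod (p ^ (s + 2)), 4 ^ (n + 1) * (D ^ (n + 1) - D' ^ (n + 1)) ∈ T := by
      intro D D'
      obtain ⟨t, ht⟩ := few hp.pos hC D
      obtain ⟨t', ht'⟩ := few hp.pos hC D'
      exact Finset.mem_image.2 ⟨(t, t'), Finset.mem_univ _, by rw [← ht, ← ht', hn, mul_sub]⟩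
    have val : ∀ g : Fin 2 → Γ, ∃ A D D', Ld ρ (p ^ (s + 2)) c (FreeGroup.lift g w : Γ) A ∧
        A 0 0 = 4 ^ (n + 1) * (D ^ (n + 1) - D' ^ (n + 1)) := by
      intro g
      obtain ⟨a, b, h0⟩ := (g 0).2.1
      obtain ⟨a', b', h1⟩ := (g 1).2.1
      have k1 := ld_wn h0 h1 n
      rw [← hc, ← hw] at k1
      exact ⟨_, _, _, k1, rfl⟩
    obtain ⟨⟨X, hX, dX⟩, Y, hY, dY⟩ := ld_gens (ZMod.castHom d1 (ZMod (p ^ (s + 2))))
    obtain ⟨A₀, z1, z2⟩ : ∃ A, Ld ρ (p ^ (s + 2)) c (wn X Y n) A ∧ A 0 0 = 4 ^ (n + 1) := by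
      have z := ld_wn hX hY n
      rw [← hc] at z
      exact ⟨_, z, by simp⟩
    let g₀ : Fin 2 → Γ := ![⟨X, ⟨_, _, hX⟩, dX⟩, ⟨Y, ⟨_, _, hY⟩, dY⟩]
    have z3 : Ld ρ (p ^ (s + 2)) c (FreeGroup.lift g₀ w : Γ) A₀ := by rw [hw]; exact z1
    have all : ∀ k : ℕ, (k : ZMod (p ^ (s + 2))) * 4 ^ (n + 1) ∈ m • T := by
      intro k
      obtain ⟨l, l1, l2, l3⟩ := hcon (FreeGroup.lift g₀ w ^ k)
        (Subgroup.pow_mem _ (Subgroup.subset_closure (Set.mem_range_self g₀)) _)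
      obtain ⟨A, a1, a2⟩ := ld_list (ρ := ρ) (c := c) (by omega) T0 (l.map Γ.subtype) m
        (by simpa using l3) (fun y hy => by
          obtain ⟨y', hy', rfl⟩ := List.mem_map.1 hy
          obtain ⟨g, rfl | rfl⟩ := l1 y' hy'
          · obtain ⟨A, D, D', k1, k2⟩ := val g
            exact ⟨A, k1, k2 ▸ Tm D D'⟩
          · obtain ⟨A, D, D', k1, k2⟩ := val g
            refine ⟨-A, by rw [map_inv]; exact k1.inv p_smul (by omega), ?_⟩
            have := Tm D' D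
            rwa [← neg_sub, mul_neg, ← k2] at this)
      rw [← map_list_prod, l2, map_pow] at a1
      have := ld_unique d1 a1 (z3.pow p_smul (by omega) k)
      rwa [this, Matrix.smul_apply, nsmul_eq_mul, z2] at a2
    have c1 : (Finset.range (p ^ (2 * m + 2))).card ≤ (m • T).card :=
      Finset.card_le_card_of_injOn (fun k : ℕ => (k : ZMod (p ^ (s + 2))) * 4 ^ (n + 1))
        (fun k _ => all k) (fun k hk k' hk' e => Nat.ModEq.eq_of_lt_of_lt
          (s2 k k' ((ZMod.natCast_eq_natCast_iff _ _ _).1 (by exact_mod_cast e)))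
          (by simpa using hk) (by simpa using hk'))
    have c2 : T.card ≤ p ^ 2 := Finset.card_image_le.trans (by simp [sq])
    have c3 := c1.trans (Finset.card_nsmul_le.trans (Nat.pow_le_pow_left c2 m))
    rw [Finset.card_range, ← pow_mul] at c3
    exact absurd c3 (not_le.2 (Nat.pow_lt_pow_right hp.one_lt (by omega)))

end Pool.Agent.Results.MP_2551c4_al.WordDependence
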